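import Pool.Agent.H110.RP.C5

/-!
# Retractional versus projectional skeletons for `C(K)` (MP_baa10a_an, Q1: all implications hold)

Let `L` be `P(K)` or the dual unit ball of `C(K)` and let `(r_s)` be a retractional skeleton on `L`
whose induced set is convex (and symmetric in the second case). Call `s` good if `r_s(L)` is convex,
contains `0` if `L` does, and `X_s = {x : μ(x) = (r_s μ)(x) for all μ ∈ L}` separates the points of
`r_s(L)`. By a closing-off argument the good `s` are cofinal and closed under suprema of increasing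
sequences. For good `s` the retraction `r_s` is affine, since `r_s(μ)` is the only element of `r_s(L)`
that agrees with `μ` on `X_s`; hence `μ ↦ (r_s μ)(x)` is a weak* continuous affine function on `L`, and so
it is `μ ↦ μ(P_s x)` for some `P_s x ∈ C(K)`. The `P_s`, `s` good, form a `1`-projectional skeleton.
-/

set_option autoImplicit false

open Set Topology Filter

namespace Pool.Agent.Results.MP_baa10a_an.AllImplications

open Pool.Agent.H110.RP

universe u v

/-- (i): `C(K)` has a `1`-projectional skeleton. -/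
def CondI (K : Type u) [TopologicalSpace K] [CompactSpace K] : Prop :=
  ∃ (Γ : Type v) (_ : PartialOrder Γ) (P : Γ → C(K, ℝ) →L[ℝ] C(K, ℝ)),
    IsPSkeleton P ∧ ∀ s, ‖P s‖ ≤ 1

/-- (ii): some convex symmetric subset of the dual unit ball (with the weak* topology) is induced by a
retractional skeleton in the dual unit ball. -/
def CondII (K : Type u) [TopologicalSpace K] [CompactSpace K] : Prop :=
  ∃ (Γ : Type v) (_ : PartialOrder Γ) (r : Γ → ballK K → ballK K),
    IsRSkeleton r ∧ Convex ℝ (Ind r) ∧ ∀ μ ∈ Ind r, -μ ∈ Ind r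

/-- (iii): some convex subset of `P(K)` is induced by a retractional skeleton in `P(K)`. -/
def CondIII (K : Type u) [TopologicalSpace K] [CompactSpace K] : Prop :=
  ∃ (Γ : Type v) (_ : PartialOrder Γ) (r : Γ → probK K → probK K),
    IsRSkeleton r ∧ Convex ℝ (Ind r)

theorem iii_i {K : Type u} [TopologicalSpace K] [CompactSpace K] (h : CondIII.{u, v} K) :
    CondI.{u, v} K := by
  obtain ⟨Γ, _, r, hr, hconv⟩ := h
  have hA0 : ∀ h : (0 : WeakDual ℝ C(K, ℝ)) ∈ probK K, ⟨0, h⟩ ∈ ⋃ s, range (r s) := by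
    intro h0
    have h1 : (0 : ℝ) = 1 := h0.1
    exact absurd h1 zero_ne_one
  exact ⟨_, _, _, isPSkeleton adm_probK hr (mix_mem _ hconv) hA0, norm_pr adm_probK hr⟩

theorem ii_i {K : Type u} [TopologicalSpace K] [CompactSpace K] (h : CondII.{u, v} K) :
    CondI.{u, v} K := by
  obtain ⟨Γ, _, r, hr, hconv, hsymm⟩ := h
  have hA0 : ∀ h : (0 : WeakDual ℝ C(K, ℝ)) ∈ ballK K, ⟨0, h⟩ ∈ ⋃ s, range (r s) := by
    intro h0
    obtain ⟨s⟩ := hr.nonempty
    have h1 : (r s ⟨0, h0⟩ : WeakDual ℝ C(K, ℝ)) ∈ Ind r :=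
      ⟨_, mem_iUnion.2 ⟨s, ⟨0, h0⟩, rfl⟩, rfl⟩
    have h2 := hconv h1 (hsymm _ h1) (a := 1 / 2) (b := 1 / 2) (by norm_num) (by norm_num)
      (by norm_num)
    rw [smul_neg, add_neg_cancel] at h2
    obtain ⟨ν, hν, hν0⟩ := h2
    have h3 : ν = ⟨0, h0⟩ := Subtype.ext hν0
    rw [← h3]
    exact hν
  exact ⟨_, _, _, isPSkeleton adm_ballK hr (mix_mem _ hconv) hA0, norm_pr adm_ballK hr⟩

theorem i_ii {K : Type u} [TopologicalSpace K] [CompactSpace K] (h : CondI.{u, v} K) :
    CondII.{u, v} K := by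
  obtain ⟨Γ, _, P, hP, hn⟩ := h
  exact ⟨Γ, _, adj P hn, adj_skeleton hP hn, adj_convex hP hn, adj_symm hP hn⟩

/-- For every compact Hausdorff space `K`: (a) (iii) ⇒ (ii); (b) (ii) ⇒ (i); (c) (iii) ⇒ (i). -/
theorem result (K : Type u) [TopologicalSpace K] [CompactSpace K] [T2Space K] :
    (CondIII.{u, v} K → CondII.{u, v} K) ∧ (CondII.{u, v} K → CondI.{u, v} K) ∧
      (CondIII.{u, v} K → CondI.{u, v} K) :=
  ⟨fun h => i_ii (iii_i h), ii_i, iii_i⟩

end Pool.Agent.Results.MP_baa10a_an.AllImplications
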